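import Pool.Agent.Helper83.TW.Goals1

/-! Packet TW-GDiv: division by `exp (2 π i m w) - 1` after interpolation at the resonances. -/

set_option autoImplicit false

namespace Pool.Agent.Helper67.TW

open Complex Set Metric Pool.Agent.Helper83.TW

/-- `sin z / z` -/
noncomputable def sc (z : ℂ) : ℂ := dslope Complex.sin 0 z

lemma sc_diff : Differentiable ℂ sc := by
  have h : DifferentiableOn ℂ (dslope Complex.sin 0) Set.univ :=
    (Complex.differentiableOn_dslope (Filter.univ_mem)).2 Complex.differentiable_sin.differentiableOn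
  exact differentiableOn_univ.1 h

lemma sc_zero : sc 0 = 1 := by
  simp [sc]

lemma sc_of_ne {z : ℂ} (h : z ≠ 0) : sc z = Complex.sin z / z := by
  unfold sc
  rw [dslope_of_ne _ h, slope_def_field]
  simp

lemma norm_cos_le (z : ℂ) : ‖Complex.cos z‖ ≤ Real.exp |z.im| := by
  unfold Complex.cos
  rw [norm_div]
  have h1 : ‖Complex.exp (z * I)‖ ≤ Real.exp |z.im| := by
    rw [Complex.norm_exp]
    apply Real.exp_le_exp.2
    simp
    exact neg_le_abs _
  have h2 : ‖Complex.exp (-z * I)‖ ≤ Real.exp |z.im| := by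
    rw [Complex.norm_exp]
    apply Real.exp_le_exp.2
    simp
    exact le_abs_self _
  have h3 := norm_add_le (Complex.exp (z * I)) (Complex.exp (-z * I))
  have h4 : ‖(2:ℂ)‖ = 2 := by simp
  rw [h4]
  linarith

lemma norm_sin_le (z : ℂ) : ‖Complex.sin z‖ ≤ Real.exp |z.im| * ‖z‖ := by
  have hconv : Convex ℝ {w : ℂ | |w.im| ≤ |z.im|} := by
    have : {w : ℂ | |w.im| ≤ |z.im|} = (Complex.imLm) ⁻¹' (Icc (-|z.im|) (|z.im|)) := by
      ext w
      simp [abs_le]
    rw [this]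
    exact (convex_Icc _ _).linear_preimage _
  have h := hconv.norm_image_sub_le_of_norm_hasDerivWithin_le (f := Complex.sin)
    (f' := Complex.cos) (C := Real.exp |z.im|) (x := 0) (y := z)
    (fun w _ => (Complex.hasDerivAt_sin w).hasDerivWithinAt)
    (fun w hw => (norm_cos_le w).trans (Real.exp_le_exp.2 hw))
    (show |(0:ℂ).im| ≤ |z.im| by simp) (show |z.im| ≤ |z.im| from le_rfl)
  simpa using h

lemma norm_sc_le (z : ℂ) : ‖sc z‖ ≤ Real.exp |z.im| := by
  by_cases h : z = 0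
  · subst h
    rw [sc_zero]
    simp
  · rw [sc_of_ne h, norm_div, div_le_iff₀ (norm_pos_iff.2 h)]
    exact norm_sin_le z

lemma sc_int {k : ℤ} (hk : k ≠ 0) : sc (Real.pi * k) = 0 := by
  have h : (Real.pi : ℂ) * k ≠ 0 := by
    apply mul_ne_zero
    · exact_mod_cast Real.pi_ne_zero
    · exact_mod_cast hk
  rw [sc_of_ne h]
  have : Complex.sin (Real.pi * k) = 0 := by
    rw [mul_comm]
    exact Complex.sin_int_mul_pi k
  rw [this, zero_div]

lemma exp_pi_le : Real.exp Real.pi ≤ 33 := by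
  have h1 : Real.exp Real.pi ≤ Real.exp (16/5) := Real.exp_le_exp.2 (by
    have := Real.pi_lt_d2
    linarith)
  refine h1.trans ?_
  have h2 : Real.exp (16/5) ^ 5 = Real.exp 1 ^ 16 := by
    rw [← Real.exp_nat_mul, ← Real.exp_nat_mul]
    norm_num
  have h3 : Real.exp 1 ^ 16 ≤ 33 ^ 5 := by
    have h4 : Real.exp 1 ≤ 2.72 := Real.exp_one_lt_d9.le.trans (by norm_num)
    calc Real.exp 1 ^ 16 ≤ 2.72 ^ 16 := pow_le_pow_left₀ (Real.exp_pos _).le h4 16
      _ ≤ 33 ^ 5 := by norm_num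
  rw [← h2] at h3
  exact le_of_pow_le_pow_left₀ (by norm_num) (by norm_num) h3

lemma exp_half_pi_le : Real.exp (Real.pi / 2) ≤ 8 := by
  have h1 : Real.exp (Real.pi / 2) ≤ Real.exp 2 := Real.exp_le_exp.2 (by
    have := Real.pi_lt_d2
    linarith)
  refine h1.trans ?_
  have h2 : Real.exp 2 = Real.exp 1 ^ 2 := by
    rw [← Real.exp_nat_mul]
    norm_num
  rw [h2]
  have h4 : Real.exp 1 ≤ 2.72 := Real.exp_one_lt_d9.le.trans (by norm_num)
  calc Real.exp 1 ^ 2 ≤ 2.72 ^ 2 := pow_le_pow_left₀ (Real.exp_pos _).le h4 2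
      _ ≤ 8 := by norm_num

/-- `|sin (π ζ)| ≥ 2 |ζ|` near `0` -/
lemma sin_lower {ζ : ℂ} (hx : |ζ.re| ≤ 1/2) :
    2 * ‖ζ‖ ≤ ‖Complex.sin (Real.pi * ζ)‖ := by
  have hre : ((Real.pi : ℂ) * ζ).re = Real.pi * ζ.re := by simp
  have him : ((Real.pi : ℂ) * ζ).im = Real.pi * ζ.im := by simp
  set x := Real.pi * ζ.re with hxd
  set y := Real.pi * ζ.im with hyd
  have hsin : Complex.sin (Real.pi * ζ) =
      ((Real.sin x * Real.cosh y : ℝ) : ℂ) + ((Real.cos x * Real.sinh y : ℝ) : ℂ) * I := by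
    have : (Real.pi : ℂ) * ζ = (x : ℂ) + (y : ℂ) * I := by
      apply Complex.ext <;> simp [hxd, hyd]
    rw [this, Complex.sin_add_mul_I]
    push_cast
    ring
  have hns : ‖Complex.sin (Real.pi * ζ)‖ ^ 2 = Real.sin x ^ 2 + Real.sinh y ^ 2 := by
    rw [hsin, ← Complex.normSq_eq_norm_sq, Complex.normSq_add_mul_I]
    have h1 := Real.cosh_sq y
    have h2 := Real.sin_sq_add_cos_sq x
    have h3 : Real.cos x ^ 2 = 1 - Real.sin x ^ 2 := by linarith
    rw [mul_pow, mul_pow, h1, h3]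
    ring
  have hpi := Real.pi_pos
  -- lower bound for sin
  have h1 : 4 * ζ.re ^ 2 ≤ Real.sin x ^ 2 := by
    have hx' : |x| ≤ Real.pi / 2 := by
      rw [hxd, abs_mul, abs_of_pos hpi]
      nlinarith
    have h2 := Real.mul_le_sin (abs_nonneg x) hx'
    have h3 : 2 / Real.pi * |x| = 2 * |ζ.re| := by
      rw [hxd, abs_mul, abs_of_pos hpi]
      field_simp
    rw [h3] at h2
    have h4 : Real.sin |x| ^ 2 = Real.sin x ^ 2 := by
      rcases abs_choice x with h | h
      · rw [h]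
      · rw [h, Real.sin_neg]
        ring
    rw [← h4]
    have h5 : (2 * |ζ.re|) ^ 2 ≤ Real.sin |x| ^ 2 :=
      pow_le_pow_left₀ (by positivity) h2 2
    have h6 : (2 * |ζ.re|) ^ 2 = 4 * ζ.re ^ 2 := by
      rw [mul_pow, sq_abs]
      norm_num
    linarith
  have h2 : 4 * ζ.im ^ 2 ≤ Real.sinh y ^ 2 := by
    have h3 : |y| ≤ Real.sinh |y| := Real.self_le_sinh_iff.2 (abs_nonneg y)
    have h4 : Real.sinh |y| ^ 2 = Real.sinh y ^ 2 := by
      rcases abs_choice y with h | h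
      · rw [h]
      · rw [h, Real.sinh_neg]
        ring
    rw [← h4]
    have h5 : |y| ^ 2 ≤ Real.sinh |y| ^ 2 := pow_le_pow_left₀ (abs_nonneg _) h3 2
    have h6 : |y| ^ 2 = Real.pi ^ 2 * ζ.im ^ 2 := by
      rw [sq_abs, hyd]
      ring
    have h7 : (4:ℝ) ≤ Real.pi ^ 2 := by nlinarith [Real.pi_gt_three]
    have h8 := mul_le_mul_of_nonneg_right h7 (sq_nonneg ζ.im)
    linarith
  have h3 : (2 * ‖ζ‖) ^ 2 ≤ ‖Complex.sin (Real.pi * ζ)‖ ^ 2 := by
    rw [hns, mul_pow, ← Complex.normSq_eq_norm_sq, Complex.normSq_apply]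
    nlinarith
  exact le_of_pow_le_pow_left₀ (by norm_num) (norm_nonneg _) h3

/-- lower bound for `exp (2 π i ζ) - 1` -/
lemma exp_sub_one_lower {ζ : ℂ} (hx : |ζ.re| ≤ 1/2) (hy : |ζ.im| ≤ 1/2) :
    ‖ζ‖ / 2 ≤ ‖Complex.exp (2 * Real.pi * I * ζ) - 1‖ := by
  have h1 : Complex.exp (2 * Real.pi * I * ζ) - 1
      = 2 * I * Complex.exp (Real.pi * I * ζ) * Complex.sin (Real.pi * ζ) := by
    have h2 : Complex.exp (2 * Real.pi * I * ζ)
        = Complex.exp (Real.pi * I * ζ) * Complex.exp (Real.pi * I * ζ) := by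
      rw [← Complex.exp_add]
      congr 1
      ring
    have h3 : Complex.sin (Real.pi * ζ)
        = (Complex.exp (-(Real.pi * I * ζ)) - Complex.exp (Real.pi * I * ζ)) * I / 2 := by
      unfold Complex.sin
      rw [show -((Real.pi : ℂ) * ζ) * I = -(Real.pi * I * ζ) by ring,
        show ((Real.pi : ℂ) * ζ) * I = Real.pi * I * ζ by ring]
    have h4 : Complex.exp (Real.pi * I * ζ) * Complex.exp (-(Real.pi * I * ζ)) = 1 := by
      rw [← Complex.exp_add]
      simp
    rw [h2, h3]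
    linear_combination (Complex.I ^ 2) * (-h4)
      + (Complex.exp (Real.pi * I * ζ) * Complex.exp (Real.pi * I * ζ) - 1) * Complex.I_sq
  rw [h1, norm_mul, norm_mul, norm_mul]
  have h2 : ‖(2:ℂ)‖ = 2 := by simp
  rw [h2, Complex.norm_I]
  have h3 : 1 / 8 ≤ ‖Complex.exp (Real.pi * I * ζ)‖ := by
    rw [Complex.norm_exp]
    have h4 : (Real.pi * I * ζ : ℂ).re = - (Real.pi * ζ.im) := by simp
    rw [h4, Real.exp_neg, one_div]
    apply inv_anti₀ (Real.exp_pos _)
    refine le_trans (Real.exp_le_exp.2 ?_) exp_half_pi_le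
    have := (abs_le.1 hy).2
    nlinarith [Real.pi_pos]
  have h5 := sin_lower hx
  have h6 : (1 / 8 : ℝ) * (2 * ‖ζ‖)
      ≤ ‖Complex.exp (Real.pi * I * ζ)‖ * ‖Complex.sin (Real.pi * ζ)‖ :=
    mul_le_mul h3 h5 (by positivity) (norm_nonneg _)
  nlinarith

/-- the denominator -/
noncomputable def q (m : ℤ) (w : ℂ) : ℂ := Complex.exp (2 * Real.pi * m * I * w) - 1

lemma q_hasDeriv (m : ℤ) (w : ℂ) :
    HasDerivAt (q m) (Complex.exp (2 * Real.pi * m * I * w) * (2 * Real.pi * m * I)) w := by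
  have h : HasDerivAt (fun w : ℂ => 2 * Real.pi * m * I * w) (2 * Real.pi * m * I) w := by
    simpa using (hasDerivAt_id w).const_mul (2 * Real.pi * m * I : ℂ)
  exact (h.cexp).sub_const 1

lemma q_diff (m : ℤ) : Differentiable ℂ (q m) := fun w => (q_hasDeriv m w).differentiableAt

lemma q_at {m : ℤ} (hm : m ≠ 0) (j : ℤ) : q m (((j:ℝ) / m : ℝ) : ℂ) = 0 := by
  unfold q
  have hm' : (m : ℂ) ≠ 0 := by exact_mod_cast hm
  have : (2 * Real.pi * m * I * (((j:ℝ) / m : ℝ) : ℂ) : ℂ) = j * (2 * Real.pi * I) := by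
    push_cast
    field_simp
  rw [this, Complex.exp_int_mul_two_pi_mul_I]
  simp

lemma q_zero {m : ℤ} (hm : m ≠ 0) {w : ℂ} (h : q m w = 0) :
    ∃ j : ℤ, w = (((j:ℝ) / m : ℝ) : ℂ) := by
  unfold q at h
  rw [sub_eq_zero, Complex.exp_eq_one_iff] at h
  obtain ⟨j, hj⟩ := h
  refine ⟨j, ?_⟩
  have hm' : (m : ℂ) ≠ 0 := by exact_mod_cast hm
  have hpi : (Real.pi : ℂ) ≠ 0 := by exact_mod_cast Real.pi_ne_zero
  have h2 : (2 * Real.pi * I : ℂ) ≠ 0 := by simp [hpi]
  have h3 : (2 * Real.pi * I : ℂ) * (m * w) = (2 * Real.pi * I) * j := by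
    linear_combination hj
  have h4 := mul_left_cancel₀ h2 h3
  push_cast
  field_simp
  linear_combination h4

/-- lower bound for `q`, in terms of the nearest resonance -/
lemma q_lower {m : ℤ} (hm : m ≠ 0) {w : ℂ} (hw : |(m:ℝ) * w.im| ≤ 1/2) :
    ∃ j : ℤ, |(m:ℝ) * (w.re - (j:ℝ) / m)| ≤ 1/2 ∧
      |(m:ℝ)| / 2 * ‖w - (((j:ℝ) / m : ℝ) : ℂ)‖ ≤ ‖q m w‖ := by
  have hm' : (m : ℂ) ≠ 0 := by exact_mod_cast hm
  have hmR : (m : ℝ) ≠ 0 := by exact_mod_cast hm
  refine ⟨round ((m:ℝ) * w.re), ?_, ?_⟩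
  · have h := abs_sub_round ((m:ℝ) * w.re)
    have e : (m:ℝ) * (w.re - ((round ((m:ℝ) * w.re) : ℤ) : ℝ) / m)
        = (m:ℝ) * w.re - (round ((m:ℝ) * w.re) : ℤ) := by
      field_simp
    rw [e]
    exact h
  · set j : ℤ := round ((m:ℝ) * w.re) with hj
    set ζ : ℂ := m * w - j with hζ
    have hre : ζ.re = (m:ℝ) * w.re - j := by
      simp [hζ]
    have him : ζ.im = (m:ℝ) * w.im := by
      simp [hζ]
    have h1 := exp_sub_one_lower (ζ := ζ) (by rw [hre]; exact abs_sub_round _)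
      (by rw [him]; exact hw)
    have h2 : Complex.exp (2 * Real.pi * I * ζ) - 1 = q m w := by
      unfold q
      have : (2 * Real.pi * I * ζ : ℂ) = 2 * Real.pi * m * I * w + ((-j : ℤ) : ℂ) * (2 * Real.pi * I) := by
        rw [hζ]
        push_cast
        ring
      rw [this, Complex.exp_add, Complex.exp_int_mul_two_pi_mul_I, mul_one]
    rw [h2] at h1
    have h3 : ‖ζ‖ = |(m:ℝ)| * ‖w - (((j:ℝ) / m : ℝ) : ℂ)‖ := by
      have : ζ = m * (w - (((j:ℝ) / m : ℝ) : ℂ)) := by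
        rw [hζ]
        push_cast
        field_simp
      rw [this, norm_mul]
      congr 1
      rw [← Complex.ofReal_intCast, Complex.norm_real, Real.norm_eq_abs]
    rw [h3] at h1
    linarith

/-- the resonances -/
noncomputable def JJ (s : ℝ) (m : ℤ) : Finset ℤ := by
  classical
  exact (Finset.Icc (-(3 * |m|)) (3 * |m|)).filter
    (fun j => 1 - 3/4 * s < (j:ℝ) / m ∧ (j:ℝ) / m < 2 + 3/4 * s)

lemma mem_JJ {s : ℝ} {m : ℤ} (hs0 : 0 < s) (hs : s ≤ 1/4) (hm : m ≠ 0) (j : ℤ) :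
    j ∈ JJ s m ↔ 1 - 3/4 * s < (j:ℝ) / m ∧ (j:ℝ) / m < 2 + 3/4 * s := by
  classical
  unfold JJ
  rw [Finset.mem_filter]
  refine ⟨fun h => h.2, fun h => ⟨?_, h⟩⟩
  have hmR : (m : ℝ) ≠ 0 := by exact_mod_cast hm
  have h1 : |(j:ℝ)| ≤ 3 * |(m:ℝ)| := by
    have e : (j:ℝ) = (j:ℝ) / m * m := by field_simp
    rw [e, abs_mul]
    apply mul_le_mul_of_nonneg_right _ (abs_nonneg _)
    rw [abs_le]
    constructor <;> linarith [h.1, h.2]
  have h2 : |j| ≤ 3 * |m| := by exact_mod_cast h1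
  rw [Finset.mem_Icc]
  exact abs_le.1 h2

lemma card_JJ {s : ℝ} {m : ℤ} (hs0 : 0 < s) (hs : s ≤ 1/4) (hm : m ≠ 0) :
    ((JJ s m).card : ℝ) ≤ 3 * |(m:ℝ)| := by
  classical
  have hmR : (m : ℝ) ≠ 0 := by exact_mod_cast hm
  have hpos : 0 < |(m:ℝ)| := abs_pos.2 hmR
  have key : ∀ j ∈ JJ s m, 0 < (j:ℝ) / m ∧ (j:ℝ) / m < 3 := by
    intro j hj
    rw [mem_JJ hs0 hs hm] at hj
    constructor <;> linarith [hj.1, hj.2]
  have h : (JJ s m).card ≤ (Finset.Icc 1 (3 * m.natAbs)).card := by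
    apply Finset.card_le_card_of_injOn Int.natAbs
    · intro j hj
      have hk := key j hj
      rw [Finset.mem_coe, Finset.mem_Icc]
      have e : |(j:ℝ)| = (j:ℝ) / m * |(m:ℝ)| := by
        have e : (j:ℝ) = (j:ℝ) / m * m := by field_simp
        conv_lhs => rw [e]
        rw [abs_mul, abs_of_pos hk.1]
      have e1 : (j.natAbs : ℝ) = |(j:ℝ)| := by
        rw [Nat.cast_natAbs]
        push_cast
        rfl
      have e2 : (m.natAbs : ℝ) = |(m:ℝ)| := by
        rw [Nat.cast_natAbs]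
        push_cast
        rfl
      constructor
      · have : (0:ℝ) < j.natAbs := by
          rw [e1, e]
          exact mul_pos hk.1 hpos
        exact_mod_cast this
      · have : (j.natAbs : ℝ) ≤ 3 * m.natAbs := by
          rw [e1, e, e2]
          exact mul_le_mul_of_nonneg_right hk.2.le hpos.le
        exact_mod_cast this
    · intro i hi j hj hij
      rcases Int.natAbs_eq_natAbs_iff.1 hij with h | h
      · exact h
      · exfalso
        have h1 := (key i hi).1
        have h2 := (key j hj).1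
        rw [h] at h1
        push_cast at h1
        rw [neg_div] at h1
        linarith
  rw [Nat.card_Icc] at h
  have h' : (JJ s m).card ≤ 3 * m.natAbs := by omega
  have e2 : (m.natAbs : ℝ) = |(m:ℝ)| := by
    rw [Nat.cast_natAbs]
    push_cast
    rfl
  rw [← e2]
  exact_mod_cast h'

/-- the interpolating function -/
noncomputable def rr (s : ℝ) (m : ℤ) (e : ℂ → ℂ) (w : ℂ) : ℂ :=
  ∑ j ∈ JJ s m, e (((j:ℝ) / m : ℝ) : ℂ) * sc (Real.pi * (m * w - j))

lemma rr_diff (s : ℝ) (m : ℤ) (e : ℂ → ℂ) : Differentiable ℂ (rr s m e) := by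
  unfold rr
  apply Differentiable.fun_sum
  intro j _
  apply Differentiable.const_mul
  apply sc_diff.comp
  fun_prop

lemma rr_at {s : ℝ} {m : ℤ} (hm : m ≠ 0) (e : ℂ → ℂ) {j : ℤ} (hj : j ∈ JJ s m) :
    rr s m e (((j:ℝ) / m : ℝ) : ℂ) = e (((j:ℝ) / m : ℝ) : ℂ) := by
  have hm' : (m : ℂ) ≠ 0 := by exact_mod_cast hm
  unfold rr
  rw [Finset.sum_eq_single_of_mem j hj]
  · have : (Real.pi : ℂ) * (m * (((j:ℝ) / m : ℝ) : ℂ) - j) = 0 := by
      push_cast
      field_simp
      ring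
    rw [this, sc_zero, mul_one]
  · intro i _ hij
    have : (Real.pi : ℂ) * (m * (((j:ℝ) / m : ℝ) : ℂ) - i) = Real.pi * ((j - i : ℤ) : ℂ) := by
      push_cast
      field_simp
    rw [this, sc_int (sub_ne_zero.2 (Ne.symm hij)), mul_zero]

lemma rr_bound {s B2 : ℝ} {m : ℤ} (hs0 : 0 < s) (hs : s ≤ 1/4) (hm : m ≠ 0)
    (hms : |(m:ℝ)| * s ≤ 1) (hB2 : 0 ≤ B2) {e : ℂ → ℂ}
    (he : ∀ j : ℤ, 1 - 3/4 * s < (j:ℝ) / m → (j:ℝ) / m < 2 + 3/4 * s →
      ‖e (((j:ℝ) / m : ℝ) : ℂ)‖ ≤ B2) {w : ℂ} (hw : |w.im| < s) :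
    ‖rr s m e w‖ ≤ 100 * |(m:ℝ)| * B2 := by
  unfold rr
  have h1 : ∀ j ∈ JJ s m, ‖e (((j:ℝ) / m : ℝ) : ℂ) * sc (Real.pi * (m * w - j))‖ ≤ B2 * 33 := by
    intro j hj
    rw [mem_JJ hs0 hs hm] at hj
    rw [norm_mul]
    apply mul_le_mul (he j hj.1 hj.2) _ (norm_nonneg _) hB2
    refine (norm_sc_le _).trans (le_trans (Real.exp_le_exp.2 ?_) exp_pi_le)
    have : ((Real.pi : ℂ) * (m * w - j)).im = Real.pi * ((m:ℝ) * w.im) := by
      simp
    rw [this, abs_mul, abs_of_pos Real.pi_pos, abs_mul]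
    have h3 : |(m:ℝ)| * |w.im| ≤ 1 :=
      (mul_le_mul_of_nonneg_left hw.le (abs_nonneg _)).trans hms
    nlinarith [Real.pi_pos]
  refine (norm_sum_le_of_le _ h1).trans ?_
  rw [Finset.sum_const, nsmul_eq_mul]
  have h2 := card_JJ hs0 hs hm
  have h3 : 0 ≤ B2 * 33 := by positivity
  have h4 : 0 ≤ |(m:ℝ)| * B2 := by positivity
  nlinarith [mul_le_mul_of_nonneg_right h2 h3]

theorem gdiv : GDiv := by
  intro s B1 B2 m e hs0 hs hm hms hed heB hB2 he
  have hm' : (m : ℂ) ≠ 0 := by exact_mod_cast hm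
  have hmR : (m : ℝ) ≠ 0 := by exact_mod_cast hm
  have hmpos : 0 < |(m:ℝ)| := abs_pos.2 hmR
  set G : ℂ → ℂ := fun w => e w - rr s m e w with hG
  set B' : ℝ := B1 + 100 * |(m:ℝ)| * B2 with hB'
  have hsub : Om (s/2) ⊆ Om s := Om_mono (by linarith)
  have hGd : DifferentiableOn ℂ G (Om s) := hed.sub (rr_diff s m e).differentiableOn
  have hGB : ∀ w ∈ Om s, ‖G w‖ ≤ B' := by
    intro w hw
    refine (norm_sub_le _ _).trans ?_
    have h1 := heB w hw
    have h2 := rr_bound hs0 hs hm hms hB2 he hw.2.2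
    rw [hB']
    linarith
  have hB'0 : 0 ≤ B' := by
    have h1 : ((1:ℝ) : ℂ) ∈ Om s := Om_real (by linarith) (by linarith) hs0
    exact (norm_nonneg _).trans (hGB _ h1)
  have hGz : ∀ j : ℤ, 1 - 3/4 * s < (j:ℝ) / m → (j:ℝ) / m < 2 + 3/4 * s →
      G (((j:ℝ) / m : ℝ) : ℂ) = 0 := by
    intro j h1 h2
    have hj : j ∈ JJ s m := (mem_JJ hs0 hs hm j).2 ⟨h1, h2⟩
    simp only [hG]
    rw [rr_at hm e hj, sub_self]
  -- zeros of q in `Om (s/2)` are resonances in the window
  have hqz : ∀ w ∈ Om (s/2), q m w = 0 → ∃ j : ℤ, w = (((j:ℝ) / m : ℝ) : ℂ) ∧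
      1 - 3/4 * s < (j:ℝ) / m ∧ (j:ℝ) / m < 2 + 3/4 * s := by
    intro w hw hq
    obtain ⟨j, hj⟩ := q_zero hm hq
    refine ⟨j, hj, ?_, ?_⟩
    · have := hw.1
      rw [hj, Complex.ofReal_re] at this
      linarith
    · have := hw.2.1
      rw [hj, Complex.ofReal_re] at this
      linarith
  set κ : ℂ → ℂ := fun w => if q m w = 0 then deriv G w / deriv (q m) w else G w / q m w with hκ
  -- the Schwarz lemma at a resonance
  have hSch : ∀ (c w : ℂ), c ∈ Om s → G c = 0 → ball c (s/4) ⊆ Om s → w ∈ ball c (s/4) →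
      ‖dslope G c w‖ ≤ B' / (s/4) := by
    intro c w hc hGc hball hw
    have hmaps : MapsTo G (ball c (s/4)) (closedBall (G c) B') := by
      intro z hz
      rw [hGc, mem_closedBall_zero_iff]
      exact hGB z (hball hz)
    exact Complex.norm_dslope_le_div_of_mapsTo_ball (hGd.mono hball) hmaps hw
  have hballsub : ∀ (x : ℝ), 1 - 3/4 * s < x → x < 2 + 3/4 * s →
      ball (x : ℂ) (s/4) ⊆ Om s := by
    intro x h1 h2 z hz
    rw [mem_ball, dist_eq_norm] at hz
    have h3 : |(z - (x:ℂ)).re| < s/4 := (Complex.abs_re_le_norm _).trans_lt hz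
    have h4 : |(z - (x:ℂ)).im| < s/4 := (Complex.abs_im_le_norm _).trans_lt hz
    rw [Complex.sub_re, Complex.ofReal_re, abs_lt] at h3
    rw [Complex.sub_im, Complex.ofReal_im, sub_zero] at h4
    exact ⟨by linarith [h3.1], by linarith [h3.2], by linarith⟩
  have hqd : ∀ j : ℤ, deriv (q m) (((j:ℝ) / m : ℝ) : ℂ) = 2 * Real.pi * m * I := by
    intro j
    rw [(q_hasDeriv m _).deriv]
    have h := q_at hm j
    unfold q at h
    rw [sub_eq_zero] at h
    rw [h, one_mul]
  have hpi : (Real.pi : ℂ) ≠ 0 := by exact_mod_cast Real.pi_ne_zero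
  have hqd0 : (2 * Real.pi * m * I : ℂ) ≠ 0 := by
    simp [hpi, hm']
  refine ⟨κ, rr s m e, ?_, (rr_diff s m e).differentiableOn, ?_, ?_, ?_⟩
  · -- differentiability of κ
    intro w0 hw0
    apply DifferentiableAt.differentiableWithinAt
    have hGat : ∀ w ∈ Om s, DifferentiableAt ℂ G w := fun w hw =>
      (hGd w hw).differentiableAt ((isOpen_Om s).mem_nhds hw)
    by_cases h0 : q m w0 = 0
    · obtain ⟨j, hj, hj1, hj2⟩ := hqz w0 hw0 h0
      have hGw0 : G w0 = 0 := by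
        rw [hj]
        exact hGz j hj1 hj2
      have hd0 : dslope (q m) w0 w0 ≠ 0 := by
        rw [dslope_same, hj, hqd]
        exact hqd0
      have hdq : Differentiable ℂ (dslope (q m) w0) := by
        have h : DifferentiableOn ℂ (dslope (q m) w0) Set.univ :=
          (Complex.differentiableOn_dslope (Filter.univ_mem)).2 (q_diff m).differentiableOn
        exact differentiableOn_univ.1 h
      have hdG : DifferentiableAt ℂ (dslope G w0) w0 := by
        have h : DifferentiableOn ℂ (dslope G w0) (Om s) :=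
          (Complex.differentiableOn_dslope ((isOpen_Om s).mem_nhds (hsub hw0))).2 hGd
        exact (h w0 (hsub hw0)).differentiableAt ((isOpen_Om s).mem_nhds (hsub hw0))
      have hev : ∀ᶠ w in nhds w0, dslope (q m) w0 w ≠ 0 :=
        hdq.continuous.continuousAt.eventually_ne hd0
      have heq : κ =ᶠ[nhds w0] fun w => dslope G w0 w / dslope (q m) w0 w := by
        filter_upwards [hev] with w hw
        by_cases hww : w = w0
        · subst hww
          simp only [hκ]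
          rw [if_pos h0, dslope_same, dslope_same]
        · have e1 : dslope G w0 w = G w / (w - w0) := by
            rw [dslope_of_ne _ hww, slope_def_field, hGw0, sub_zero]
          have e2 : dslope (q m) w0 w = q m w / (w - w0) := by
            rw [dslope_of_ne _ hww, slope_def_field, h0, sub_zero]
          have hq' : q m w ≠ 0 := by
            intro h
            rw [e2, h, zero_div] at hw
            exact hw rfl
          simp only [hκ]
          rw [if_neg hq', e1, e2]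
          have : w - w0 ≠ 0 := sub_ne_zero.2 hww
          field_simp
      exact (hdG.div (hdq w0) hd0).congr_of_eventuallyEq heq
    · have heq : κ =ᶠ[nhds w0] fun w => G w / q m w := by
        have hev : ∀ᶠ w in nhds w0, q m w ≠ 0 :=
          (q_diff m).continuous.continuousAt.eventually_ne h0
        filter_upwards [hev] with w hw
        simp only [hκ]
        rw [if_neg hw]
      exact ((hGat w0 (hsub hw0)).div (q_diff m w0) h0).congr_of_eventuallyEq heq
  · intro w hw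
    exact rr_bound hs0 hs hm hms hB2 he (hsub hw).2.2
  · -- the bound
    intro w hw
    have htgt : 8 * B' / (|(m:ℝ)| * s) ≤ 16 / (|(m:ℝ)| * s) * B' := by
      rw [div_mul_eq_mul_div]
      apply div_le_div_of_nonneg_right _ (by positivity)
      linarith
    refine le_trans ?_ htgt
    have him : |(m:ℝ) * w.im| ≤ 1/2 := by
      rw [abs_mul]
      have h1 := hw.2.2
      have h2 : |(m:ℝ)| * |w.im| ≤ |(m:ℝ)| * (s/2) :=
        mul_le_mul_of_nonneg_left h1.le (abs_nonneg _)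
      linarith
    by_cases h0 : q m w = 0
    · obtain ⟨j, hj, hj1, hj2⟩ := hqz w hw h0
      have hGw0 : G w = 0 := by
        rw [hj]
        exact hGz j hj1 hj2
      have hb : ball w (s/4) ⊆ Om s := by
        rw [hj]
        exact hballsub _ hj1 hj2
      have h1 := hSch w w (hsub hw) hGw0 hb (mem_ball_self (by linarith))
      rw [dslope_same] at h1
      simp only [hκ]
      rw [if_pos h0, norm_div]
      have h2 : deriv (q m) w = 2 * Real.pi * m * I := by
        rw [hj]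
        exact hqd j
      have h3 : ‖(2 * Real.pi * m * I : ℂ)‖ = 2 * Real.pi * |(m:ℝ)| := by
        rw [norm_mul, norm_mul, norm_mul, Complex.norm_I, mul_one, Complex.norm_real,
          Real.norm_of_nonneg Real.pi_pos.le, ← Complex.ofReal_intCast, Complex.norm_real,
          Real.norm_eq_abs]
        simp
      rw [h2, h3, div_le_div_iff₀ (by positivity) (by positivity)]
      have h4 : ‖deriv G w‖ * s ≤ 4 * B' := by
        rw [le_div_iff₀ (by linarith)] at h1
        linarith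
      have h5 : 1 ≤ 2 * Real.pi := by nlinarith [Real.pi_gt_three]
      have h6 : 0 ≤ 4 * B' * |(m:ℝ)| := by positivity
      calc ‖deriv G w‖ * (|(m:ℝ)| * s) = (‖deriv G w‖ * s) * |(m:ℝ)| := by ring
        _ ≤ (4 * B') * |(m:ℝ)| := mul_le_mul_of_nonneg_right h4 (abs_nonneg _)
        _ ≤ 8 * B' * (2 * Real.pi * |(m:ℝ)|) := by nlinarith
    · obtain ⟨j, hj1, hj2⟩ := q_lower hm him
      set c : ℂ := (((j:ℝ) / m : ℝ) : ℂ) with hc
      have hqpos : 0 < ‖q m w‖ := norm_pos_iff.2 h0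
      simp only [hκ]
      rw [if_neg h0, norm_div, div_le_div_iff₀ hqpos (by positivity)]
      by_cases hnear : ‖w - c‖ < s/4
      · have hre : |w.re - (j:ℝ)/m| < s/4 := by
          have h3 : |(w - c).re| < s/4 := (Complex.abs_re_le_norm _).trans_lt hnear
          rwa [Complex.sub_re, hc, Complex.ofReal_re] at h3
        rw [abs_lt] at hre
        have h1 : 1 - 3/4 * s < (j:ℝ) / m := by linarith [hw.1, hre.2]
        have h2 : (j:ℝ) / m < 2 + 3/4 * s := by linarith [hw.2.1, hre.1]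
        have hGc : G c = 0 := hGz j h1 h2
        have hcm : c ∈ Om s := Om_real (by linarith) (by linarith) hs0
        have h3 := hSch c w hcm hGc (hballsub _ h1 h2) (by
          rw [mem_ball, dist_eq_norm]
          exact hnear)
        have hwc : w ≠ c := by
          intro h
          apply h0
          rw [h]
          exact q_at hm j
        have hwc' : 0 < ‖w - c‖ := norm_pos_iff.2 (sub_ne_zero.2 hwc)
        have e1 : dslope G c w = G w / (w - c) := by
          rw [dslope_of_ne _ hwc, slope_def_field, hGc, sub_zero]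
        rw [e1, norm_div, div_le_div_iff₀ hwc' (by linarith)] at h3
        have h4 : ‖G w‖ * s ≤ 4 * B' * ‖w - c‖ := by linarith
        calc ‖G w‖ * (|(m:ℝ)| * s) = (‖G w‖ * s) * |(m:ℝ)| := by ring
          _ ≤ (4 * B' * ‖w - c‖) * |(m:ℝ)| := mul_le_mul_of_nonneg_right h4 (abs_nonneg _)
          _ = 8 * B' * (|(m:ℝ)| / 2 * ‖w - c‖) := by ring
          _ ≤ 8 * B' * ‖q m w‖ := mul_le_mul_of_nonneg_left hj2 (by linarith)
      · have h1 : s/4 ≤ ‖w - c‖ := not_lt.1 hnear
        have h2 := hGB w (hsub hw)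
        have h3 : |(m:ℝ)| * s / 8 ≤ ‖q m w‖ := by
          have := mul_le_mul_of_nonneg_left h1 (show 0 ≤ |(m:ℝ)| / 2 by positivity)
          linarith
        calc ‖G w‖ * (|(m:ℝ)| * s) ≤ B' * (|(m:ℝ)| * s) :=
              mul_le_mul_of_nonneg_right h2 (by positivity)
          _ = 8 * B' * (|(m:ℝ)| * s / 8) := by ring
          _ ≤ 8 * B' * ‖q m w‖ := mul_le_mul_of_nonneg_left h3 (by linarith)
  · intro w hw
    have hqe : Complex.exp (2 * Real.pi * m * I * w) - 1 = q m w := rfl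
    rw [hqe]
    by_cases h0 : q m w = 0
    · obtain ⟨j, hj, hj1, hj2⟩ := hqz w hw h0
      have hGw0 : G w = 0 := by
        rw [hj]
        exact hGz j hj1 hj2
      rw [h0, mul_zero]
      exact hGw0.symm
    · simp only [hκ]
      rw [if_neg h0, div_mul_cancel₀ _ h0]

end Pool.Agent.Helper67.TW
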